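import Pool.Agent.H72.EQQ.Targets3
import Pool.Agent.H82.EQ.VFN
import Pool.Agent.H63.EQ.RHQ

/-!
# Board `eqq_modules`, row `MUH`

The distribution function of the norm under the limit measure is Hoelder continuous.
-/

set_option autoImplicit false

open MeasureTheory Filter
open scoped ENNReal
open Pool.Agent.H71.EQ
open Pool.Agent.H72.EQQ
open Pool.Agent.H82.EQ (pz hz)

namespace Pool.Agent.H90.EQR.MUH

theorem nu_pos (k : ℕ) : 0 < nu k := by
  unfold nu
  positivity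

theorem nu_le {k : ℕ} (hk : 2 ≤ k) : nu k ≤ 1 / 2 := by
  unfold nu
  have : (2 : ℝ) ≤ k := by exact_mod_cast hk
  exact one_div_le_one_div_of_le (by norm_num) (by linarith)

theorem pz_nn {k : ℕ} (z : Fin k → ℝ) : 0 ≤ pz z := abs_nonneg _

theorem hz_nn {k : ℕ} (z : Fin k → ℝ) : 0 ≤ hz z := (norm_nonneg z).trans (le_max_left _ _)

theorem pz_le {k : ℕ} (z : Fin k → ℝ) : pz z ≤ hz z ^ (k + 1) := by
  have h1 : |∏ i, z i| ≤ hz z ^ k := by
    rw [Finset.abs_prod]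
    calc ∏ i, |z i| ≤ ∏ _i : Fin k, hz z := Finset.prod_le_prod (fun i _ => abs_nonneg _)
          (fun i _ => (norm_le_pi_norm z i).trans (le_max_left _ _))
      _ = hz z ^ k := by simp
  have h2 : |∑ i, z i| ≤ hz z := le_max_right _ _
  unfold pz
  rw [abs_mul, pow_succ]
  exact mul_le_mul h1 h2 (abs_nonneg _) (pow_nonneg (hz_nn z) _)

/-- the norm of `arg E z` -/
theorem norm_arg {k : ℕ} (E : ℕ) (z : Fin k → ℝ) :
    ‖arg E z‖ = (E : ℝ) ^ nu k * pz z ^ (-nu k) * hz z := by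
  set c : ℝ := (E : ℝ) ^ nu k * pz z ^ (-nu k) with hc
  have hc0 : 0 ≤ c := mul_nonneg (Real.rpow_nonneg (Nat.cast_nonneg _) _)
    (Real.rpow_nonneg (pz_nn z) _)
  have harg : ∀ i, arg E z i = c * extR z i := by
    intro i
    unfold arg
    rw [Pool.Agent.H82.EQ.PR_eq_pz]
  refine le_antisymm ?_ ?_
  · rw [pi_norm_le_iff_of_nonneg (mul_nonneg hc0 (hz_nn z))]
    intro i
    rw [harg, norm_mul, Real.norm_of_nonneg hc0]
    exact mul_le_mul_of_nonneg_left (Pool.Agent.H72.EQQ.RHQaux.ext_le z i) hc0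
  · have hh : hz z = max ‖z‖ |∑ i, z i| := rfl
    rw [hh, mul_max_of_nonneg _ _ hc0]
    refine max_le ?_ ?_
    · have h0 : c * ‖z‖ = ‖c • z‖ := by
        rw [norm_smul, Real.norm_of_nonneg hc0]
      rw [h0, pi_norm_le_iff_of_nonneg (norm_nonneg _)]
      intro i
      have h1 : (c • z) i = arg E z i.castSucc := by
        rw [harg]
        simp [extR]
      rw [h1]
      exact norm_le_pi_norm _ _
    · have h1 : c * |∑ i, z i| = ‖arg E z (Fin.last k)‖ := by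
        rw [harg, norm_mul, Real.norm_of_nonneg hc0]
        simp [extR]
      rw [h1]
      exact norm_le_pi_norm _ _

theorem pz_pos {k : ℕ} {E : ℕ} {z : Fin k → ℝ} {t : ℝ} (ht : 0 ≤ t)
    (h : t < ‖arg E z‖) : 0 < pz z := by
  rcases (pz_nn z).lt_or_eq with h0 | h0
  · exact h0
  · exfalso
    rw [norm_arg, ← h0, Real.zero_rpow (neg_ne_zero.2 (nu_pos k).ne')] at h
    simp only [mul_zero, zero_mul] at h
    linarith

theorem cone_lt {k : ℕ} {E : ℕ} (hE : 1 ≤ E) {z : Fin k → ℝ} {t : ℝ} (ht : 0 ≤ t)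
    (h : t < ‖arg E z‖) : t * (E : ℝ) ^ (-nu k) * pz z ^ nu k < hz z := by
  have hp := pz_pos ht h
  have hE0 : (0 : ℝ) < E := by exact_mod_cast hE
  have he : (0 : ℝ) < (E : ℝ) ^ nu k := Real.rpow_pos_of_pos hE0 _
  have hq : (0 : ℝ) < pz z ^ nu k := Real.rpow_pos_of_pos hp _
  rw [norm_arg, Real.rpow_neg (pz_nn z)] at h
  rw [Real.rpow_neg hE0.le]
  have h1 : t * ((E : ℝ) ^ nu k)⁻¹ * pz z ^ nu k =
      t * (((E : ℝ) ^ nu k)⁻¹ * pz z ^ nu k) := by ring
  have h2 : hz z = ((E : ℝ) ^ nu k * (pz z ^ nu k)⁻¹ * hz z) *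
      (((E : ℝ) ^ nu k)⁻¹ * pz z ^ nu k) := by
    field_simp
  rw [h1, h2]
  exact mul_lt_mul_of_pos_right h (by positivity)

theorem cone_le {k : ℕ} {E : ℕ} (hE : 1 ≤ E) {z : Fin k → ℝ} {t : ℝ} (hp : 0 < pz z)
    (h : ‖arg E z‖ ≤ t) : hz z ≤ t * (E : ℝ) ^ (-nu k) * pz z ^ nu k := by
  have hE0 : (0 : ℝ) < E := by exact_mod_cast hE
  have he : (0 : ℝ) < (E : ℝ) ^ nu k := Real.rpow_pos_of_pos hE0 _
  have hq : (0 : ℝ) < pz z ^ nu k := Real.rpow_pos_of_pos hp _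
  rw [norm_arg, Real.rpow_neg (pz_nn z)] at h
  rw [Real.rpow_neg hE0.le]
  have h1 : t * ((E : ℝ) ^ nu k)⁻¹ * pz z ^ nu k =
      t * (((E : ℝ) ^ nu k)⁻¹ * pz z ^ nu k) := by ring
  have h2 : hz z = ((E : ℝ) ^ nu k * (pz z ^ nu k)⁻¹ * hz z) *
      (((E : ℝ) ^ nu k)⁻¹ * pz z ^ nu k) := by
    field_simp
  rw [h1]
  conv_lhs => rw [h2]
  exact mul_le_mul_of_nonneg_right h (by positivity)

theorem pz_zero {k : ℕ} {E : ℕ} (hE : 1 ≤ E) {z : Fin k → ℝ} (h : ‖arg E z‖ < 1) :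
    pz z = 0 := by
  by_contra h0
  have hp : 0 < pz z := lt_of_le_of_ne (pz_nn z) (Ne.symm h0)
  have hE1 : (1 : ℝ) ≤ E := by exact_mod_cast hE
  have h1 : (1 : ℝ) ≤ (E : ℝ) ^ nu k := Real.one_le_rpow hE1 (nu_pos k).le
  have h2 : pz z ^ nu k ≤ hz z := by
    calc pz z ^ nu k ≤ (hz z ^ (k + 1)) ^ nu k :=
          Real.rpow_le_rpow (pz_nn z) (pz_le z) (nu_pos k).le
      _ = hz z := by
          rw [← Real.rpow_natCast, ← Real.rpow_mul (hz_nn z)]
          have : ((k + 1 : ℕ) : ℝ) * nu k = 1 := by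
            unfold nu
            push_cast
            field_simp
          rw [this, Real.rpow_one]
  have hq : (0 : ℝ) < pz z ^ nu k := Real.rpow_pos_of_pos hp _
  have h3 : 1 ≤ (pz z ^ nu k)⁻¹ * hz z := by
    rw [← inv_mul_cancel₀ hq.ne']
    exact mul_le_mul_of_nonneg_left h2 (inv_nonneg.2 hq.le)
  rw [norm_arg, Real.rpow_neg (pz_nn z), mul_assoc] at h
  have h4 : (1 : ℝ) * 1 ≤ (E : ℝ) ^ nu k * ((pz z ^ nu k)⁻¹ * hz z) :=
    mul_le_mul h1 h3 (by norm_num) (by linarith)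
  linarith

theorem meas_le (h3 : T_SEQ) (h5 : T_PRD) (k : ℕ) (hk : 2 ≤ k) : ∃ c C : ℝ, 0 < c ∧ 0 < C ∧
    ∀ (S : Set (Fin (k + 1) → ℝ)) (Y : ℝ) (b : ℝ≥0∞), MeasurableSet S → 1 ≤ Y →
      (∀ E : ℕ, 1 ≤ E → (E : ℝ) < Y → volume {z : Fin k → ℝ | PR z ≤ 1 ∧ arg E z ∈ S} ≤ b) →
      limitMeasure k S ≤ ENNReal.ofReal C * b +
        ENNReal.ofReal (C * Y ^ (-c)) * volume {z : Fin k → ℝ | PR z ≤ 1} := by
  classical
  obtain ⟨c, C, hc, hC, H⟩ := h3 k hk
  refine ⟨c, C, hc, hC, fun S Y b hS hY hb => ?_⟩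
  set W : ℕ → ℝ := fun E => wt (k + 1) E * (E : ℝ) ^ (1 - nu k) with hW
  have hnu : (1 : ℝ) - nu k ≠ 0 := by
    have := nu_le hk
    intro h
    linarith
  have hW0 : W 0 = 0 := by
    simp only [hW, Nat.cast_zero, Real.zero_rpow hnu, mul_zero]
  have hWn : ∀ E, 0 ≤ W E := by
    intro E
    rcases Nat.eq_zero_or_pos E with h | h
    · rw [h, hW0]
    · exact mul_nonneg (h5 k E hk h).2.2.1 (Real.rpow_nonneg (Nat.cast_nonneg _) _)
  have e1 : limitMeasure k S =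
      ∑' E : ℕ, ENNReal.ofReal (W E) * volume {z : Fin k → ℝ | PR z ≤ 1 ∧ arg E z ∈ S} := by
    unfold limitMeasure
    rw [Measure.sum_apply _ hS]
    refine tsum_congr fun E => ?_
    rw [Measure.smul_apply, smul_eq_mul, Measure.map_apply (measurable_arg E) hS,
      Measure.restrict_apply (measurable_arg E hS)]
    have : arg E ⁻¹' S ∩ {z : Fin k → ℝ | PR z ≤ 1} =
        {z : Fin k → ℝ | PR z ≤ 1 ∧ arg E z ∈ S} := by
      ext z
      exact and_comm
    rw [this]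
  rw [e1, ENNReal.tsum_eq_iSup_sum]
  refine iSup_le fun F => ?_
  set V := volume {z : Fin k → ℝ | PR z ≤ 1} with hVdef
  have e2 : ∀ E ∈ F, ENNReal.ofReal (W E) * volume {z : Fin k → ℝ | PR z ≤ 1 ∧ arg E z ∈ S} ≤
      (if 1 ≤ E ∧ (E : ℝ) < Y then ENNReal.ofReal (W E) else 0) * b +
        (if Y ≤ (E : ℝ) then ENNReal.ofReal (W E) else 0) * V := by
    intro E _
    by_cases h1 : Y ≤ (E : ℝ)
    · rw [if_pos h1]
      refine le_trans ?_ le_add_self
      exact mul_le_mul_right (measure_mono fun z hz => hz.1) _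
    · rcases Nat.eq_zero_or_pos E with h0 | h0
      · rw [h0, hW0]
        simp
      · rw [if_neg h1, if_pos ⟨h0, not_le.1 h1⟩, zero_mul, add_zero]
        exact mul_le_mul_right (hb E h0 (not_le.1 h1)) _
  refine (Finset.sum_le_sum e2).trans ?_
  rw [Finset.sum_add_distrib, ← Finset.sum_mul, ← Finset.sum_mul]
  have e3 : ∀ (p : ℕ → Prop) [DecidablePred p] (Z : ℝ), 1 ≤ Z → (∀ E, p E → Z ≤ (E : ℝ)) →
      ∑ E ∈ F, (if p E then ENNReal.ofReal (W E) else 0) ≤ ENNReal.ofReal (C * Z ^ (-c)) := by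
    intro p _ Z hZ hp
    rw [← Finset.sum_filter, ← ENNReal.ofReal_sum_of_nonneg fun E _ => hWn E]
    refine ENNReal.ofReal_le_ofReal ?_
    exact H Z (F.filter p) hZ fun E hE => hp E (Finset.mem_filter.1 hE).2
  refine add_le_add ?_ ?_
  · have h6 := e3 (fun E => 1 ≤ E ∧ (E : ℝ) < Y) 1 le_rfl fun E hE => by exact_mod_cast hE.1
    rw [Real.one_rpow, mul_one] at h6
    exact mul_le_mul_left h6 _
  · exact mul_le_mul_left (e3 (fun E => Y ≤ (E : ℝ)) Y hY fun E hE => hE) _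

theorem meas_real (h3 : T_SEQ) (h5 : T_PRD) (k : ℕ) (hk : 2 ≤ k) : ∃ c C V : ℝ, 0 < c ∧ 0 < C ∧
    0 ≤ V ∧ ∀ (S : Set (Fin (k + 1) → ℝ)) (Y v : ℝ), MeasurableSet S → 1 ≤ Y → 0 ≤ v →
      (∀ E : ℕ, 1 ≤ E → (E : ℝ) < Y →
        volume {z : Fin k → ℝ | PR z ≤ 1 ∧ arg E z ∈ S} ≤ ENNReal.ofReal v) →
      (limitMeasure k).real S ≤ C * v + C * Y ^ (-c) * V := by
  obtain ⟨c, C, hc, hC, H⟩ := meas_le h3 h5 k hk
  refine ⟨c, C, volume.real {z : Fin k → ℝ | PR z ≤ 1}, hc, hC, measureReal_nonneg,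
    fun S Y v hS hY hv hE => ?_⟩
  have hfin : volume {z : Fin k → ℝ | PR z ≤ 1} ≠ ⊤ := by
    have h := Pool.Agent.H82.EQ.vol_ne_top hk
    have e : {z : Fin k → ℝ | PR z ≤ 1} = {z : Fin k → ℝ | pz z ≤ 1} := by
      ext z
      show PR z ≤ 1 ↔ pz z ≤ 1
      rw [Pool.Agent.H82.EQ.PR_eq_pz]
    rw [e]
    exact h
  have hY0 : 0 ≤ Y ^ (-c) := Real.rpow_nonneg (by linarith) _
  have h1 := H S Y (ENNReal.ofReal v) hS hY hE
  have h2 : volume {z : Fin k → ℝ | PR z ≤ 1} =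
      ENNReal.ofReal (volume.real {z : Fin k → ℝ | PR z ≤ 1}) := by
    rw [ofReal_measureReal hfin]
  rw [h2, ← ENNReal.ofReal_mul hC.le, ← ENNReal.ofReal_mul (by positivity),
    ← ENNReal.ofReal_add (by positivity) (by positivity)] at h1
  exact ENNReal.toReal_le_of_le_ofReal (by positivity) h1

theorem pf_LWN1 (h6 : T_NUL) : T_LWN1 := by
  intro k E hk hE
  refine measure_mono_null (fun z hz => ?_) (h6 k (by omega) 0).1
  show PR z = 0
  rw [Pool.Agent.H82.EQ.PR_eq_pz]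
  exact pz_zero hE hz.2

theorem pf_TLE (h2 : T_TLT) : T_TLE := by
  intro k hk
  obtain ⟨C, hC, H⟩ := h2 k hk
  refine ⟨C, hC, fun E T hE hT hET => ?_⟩
  have hE0 : (0 : ℝ) < E := by exact_mod_cast hE
  have hT0 : 0 < T := by linarith
  have hnu := nu_pos k
  have h1 : T ^ (1 / 2 : ℝ) ≤ T * (E : ℝ) ^ (-nu k) := by
    have h2 : (E : ℝ) ^ nu k ≤ T ^ (1 / 2 : ℝ) := by
      calc (E : ℝ) ^ nu k ≤ (T ^ (((k : ℝ) + 1) / 2)) ^ nu k :=
            Real.rpow_le_rpow hE0.le hET hnu.le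
        _ = T ^ (1 / 2 : ℝ) := by
            rw [← Real.rpow_mul hT0.le]
            congr 1
            unfold nu
            field_simp
    have h3 : (0 : ℝ) < (E : ℝ) ^ nu k := Real.rpow_pos_of_pos hE0 _
    rw [Real.rpow_neg hE0.le, ← div_eq_mul_inv, le_div_iff₀ h3]
    calc T ^ (1 / 2 : ℝ) * (E : ℝ) ^ nu k ≤ T ^ (1 / 2 : ℝ) * T ^ (1 / 2 : ℝ) :=
          mul_le_mul_of_nonneg_left h2 (Real.rpow_nonneg hT0.le _)
      _ = T := by
          rw [← Real.rpow_add hT0]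
          norm_num
  have h4 : 1 ≤ T ^ (1 / 2 : ℝ) := Real.one_le_rpow hT (by norm_num)
  have h5 := H (T * (E : ℝ) ^ (-nu k)) (h4.trans h1)
  refine (measure_mono fun z hz => ?_).trans (h5.trans (ENNReal.ofReal_le_ofReal ?_))
  · refine ⟨?_, cone_lt hE hT0.le hz.2⟩
    rw [← Pool.Agent.H82.EQ.PR_eq_pz]
    exact hz.1
  · refine mul_le_mul_of_nonneg_left ?_ hC.le
    calc (T * (E : ℝ) ^ (-nu k)) ^ (-(1 / 2) : ℝ) ≤ (T ^ (1 / 2 : ℝ)) ^ (-(1 / 2) : ℝ) :=
          Real.rpow_le_rpow_of_nonpos (by positivity) h1 (by norm_num)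
      _ = T ^ (-(1 / 4) : ℝ) := by
          rw [← Real.rpow_mul hT0.le]
          norm_num

theorem inv_diff {n : ℕ} {t s : ℝ} (ht : 1 / 2 ≤ t) (hs : 0 < s) :
    (t ^ n)⁻¹ - ((t + s) ^ n)⁻¹ ≤ n * 2 ^ (n + 1) * s := by
  have ht0 : 0 < t := by linarith
  have hts : 0 < t + s := by linarith
  have h1 : 1 + (n : ℝ) * (-(s / (t + s))) ≤ (1 + -(s / (t + s))) ^ n := by
    refine one_add_mul_le_pow ?_ n
    have : s / (t + s) ≤ 1 := (div_le_one hts).2 (by linarith)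
    linarith
  have h2 : 1 + -(s / (t + s)) = t / (t + s) := by
    field_simp
    ring
  rw [h2, div_pow] at h1
  have h3 : s / (t + s) ≤ 2 * s := by
    rw [div_le_iff₀ hts]
    nlinarith
  have h4 : (t ^ n)⁻¹ ≤ 2 ^ n := by
    rw [← inv_pow]
    refine pow_le_pow_left₀ (by positivity) ?_ n
    rw [inv_le_comm₀ ht0 (by norm_num)]
    linarith
  have h5 : (t ^ n)⁻¹ - ((t + s) ^ n)⁻¹ = (t ^ n)⁻¹ * (1 - t ^ n / (t + s) ^ n) := by
    have : t ^ n ≠ 0 := by positivity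
    field_simp
  rw [h5]
  have h6 : 1 - t ^ n / (t + s) ^ n ≤ n * (2 * s) := by
    have h7 : (n : ℝ) * (s / (t + s)) ≤ n * (2 * s) :=
      mul_le_mul_of_nonneg_left h3 (Nat.cast_nonneg _)
    linarith
  calc (t ^ n)⁻¹ * (1 - t ^ n / (t + s) ^ n) ≤ (t ^ n)⁻¹ * (n * (2 * s)) :=
        mul_le_mul_of_nonneg_left h6 (by positivity)
    _ ≤ 2 ^ n * (n * (2 * s)) := mul_le_mul_of_nonneg_right h4 (by positivity)
    _ = n * 2 ^ (n + 1) * s := by ring

theorem pf_LYE (h1 : T_CSL) : T_LYE := by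
  intro k hk
  obtain ⟨C, hC, H⟩ := h1 k hk
  refine ⟨C * Real.sqrt (((k + 1 : ℕ) : ℝ) * 2 ^ (k + 1 + 1)), by positivity,
    fun E t s hE ht hs hs2 => ?_⟩
  have hE0 : (0 : ℝ) < E := by exact_mod_cast hE
  have hE1 : (1 : ℝ) ≤ E := by exact_mod_cast hE
  have ht0 : 0 < t := by linarith
  have hnu := nu_pos k
  set e : ℝ := (E : ℝ) ^ (-nu k) with he
  have he0 : 0 < e := Real.rpow_pos_of_pos hE0 _
  have he1 : e ≤ 1 := Real.rpow_le_one_of_one_le_of_nonpos hE1 (by linarith)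
  have hen : e ^ (k + 1) = (E : ℝ)⁻¹ := by
    rw [he, ← Real.rpow_natCast, ← Real.rpow_mul hE0.le]
    have : -nu k * ((k + 1 : ℕ) : ℝ) = -1 := by
      unfold nu
      push_cast
      field_simp
    rw [this, Real.rpow_neg_one]
  have h2 := H (t * e) ((t + s) * e) (by positivity) (mul_lt_mul_of_pos_right (by linarith) he0)
  refine (measure_mono fun z hz => ?_).trans (h2.trans (ENNReal.ofReal_le_ofReal ?_))
  · refine ⟨?_, cone_lt hE ht0.le hz.2.1, cone_le hE (pz_pos ht0.le hz.2.1) hz.2.2⟩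
    rw [← Pool.Agent.H82.EQ.PR_eq_pz]
    exact hz.1
  · have h3 : ((t * e) ^ (k + 1))⁻¹ - (((t + s) * e) ^ (k + 1))⁻¹ =
        ((t ^ (k + 1))⁻¹ - ((t + s) ^ (k + 1))⁻¹) * E := by
      rw [mul_pow, mul_pow, hen, mul_inv, mul_inv, inv_inv]
      ring
    have h4 := inv_diff (n := k + 1) ht hs
    have h5 : Real.sqrt (((t * e) ^ (k + 1))⁻¹ - (((t + s) * e) ^ (k + 1))⁻¹) ≤
        Real.sqrt (((k + 1 : ℕ) : ℝ) * 2 ^ (k + 1 + 1)) * Real.sqrt (E * s) := by
      rw [← Real.sqrt_mul (by positivity), h3]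
      refine Real.sqrt_le_sqrt ?_
      calc ((t ^ (k + 1))⁻¹ - ((t + s) ^ (k + 1))⁻¹) * E ≤
            (((k + 1 : ℕ) : ℝ) * 2 ^ (k + 1 + 1) * s) * E :=
            mul_le_mul_of_nonneg_right h4 hE0.le
        _ = ((k + 1 : ℕ) : ℝ) * 2 ^ (k + 1 + 1) * (E * s) := by ring
    have h6 : ((t + s) * e) ^ k ≤ (t + 1) ^ k := by
      refine pow_le_pow_left₀ (by positivity) ?_ k
      calc (t + s) * e ≤ (t + s) * 1 := mul_le_mul_of_nonneg_left he1 (by linarith)
        _ ≤ t + 1 := by linarith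
    calc C * ((t + s) * e) ^ k *
          Real.sqrt (((t * e) ^ (k + 1))⁻¹ - (((t + s) * e) ^ (k + 1))⁻¹) ≤
          C * (t + 1) ^ k *
            (Real.sqrt (((k + 1 : ℕ) : ℝ) * 2 ^ (k + 1 + 1)) * Real.sqrt (E * s)) := by
          gcongr
      _ = C * Real.sqrt (((k + 1 : ℕ) : ℝ) * 2 ^ (k + 1 + 1)) * (t + 1) ^ k *
            Real.sqrt (E * s) := by ring

theorem rp_le {s a b : ℝ} (hs : 0 < s) (hs1 : s ≤ 1) (h : b ≤ a) : s ^ a ≤ s ^ b :=
  Real.rpow_le_rpow_of_exponent_ge hs hs1 h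

theorem main (h1 : T_TLE) (h2 : T_LYE) (h7 : T_LWN1) (h3 : T_SEQ) (h4 : T_MEA) (h5 : T_PRD) :
    T_MUH := by
  intro k hk
  obtain ⟨C1, hC1, H1⟩ := h1 k hk
  obtain ⟨C2, hC2, H2⟩ := h2 k hk
  obtain ⟨c, C, V, hc, hC, hV, H⟩ := meas_real h3 h5 k hk
  have hfm := (h4 k hk).1
  set M : ℝ := (limitMeasure k).real Set.univ with hM
  have hM0 : 0 ≤ M := measureReal_nonneg
  have hk0 : (0 : ℝ) < k := by exact_mod_cast (by omega : 0 < k)
  have hk2 : (2 : ℝ) ≤ k := by exact_mod_cast hk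
  set g : ℝ := min (1 / (32 * k)) (c / (8 * k)) with hg
  have hg0 : 0 < g := by
    rw [hg]
    positivity
  have hg1 : g ≤ 1 / (32 * k) := min_le_left _ _
  have hg2 : g ≤ c / (8 * k) := min_le_right _ _
  have hg3 : g ≤ 1 / 64 := by
    refine hg1.trans (one_div_le_one_div_of_le (by norm_num) ?_)
    linarith
  have hg4 : g ≤ c / 4 := by
    refine hg2.trans (div_le_div_of_nonneg_left hc.le (by norm_num) ?_)
    linarith
  set K : ℝ := 2 * M + C * C1 + C * (C2 * 2 ^ k) + C * V + 1 with hK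
  have hK0 : 0 < K := by positivity
  refine ⟨g, K, hg0, hK0, fun t s hs hs1 => ?_⟩
  have hsg : 0 ≤ s ^ g := Real.rpow_nonneg hs.le _
  set S : Set (Fin (k + 1) → ℝ) := {y | t < ‖y‖ ∧ ‖y‖ ≤ t + s} with hSdef
  have hSm : MeasurableSet S :=
    (measurableSet_lt measurable_const measurable_norm).inter
      (measurableSet_le measurable_norm measurable_const)
  have hA : 0 ≤ C * C1 * s ^ g := by positivity
  have hB : 0 ≤ C * (C2 * 2 ^ k) * s ^ g := by positivity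
  have hD : 0 ≤ C * V * s ^ g := by positivity
  have hF : 0 ≤ 2 * M * s ^ g := by positivity
  have hexp : K * s ^ g = 2 * M * s ^ g + C * C1 * s ^ g + C * (C2 * 2 ^ k) * s ^ g +
      C * V * s ^ g + s ^ g := by
    rw [hK]
    ring
  rw [hexp]
  rcases le_or_gt s (1 / 2) with hs2 | hs2
  · -- small `s`
    rcases lt_or_ge t (1 / 2) with ht | ht
    · -- small `t`
      have hY : 1 ≤ s ^ (-(1 / 4) : ℝ) :=
        Real.one_le_rpow_of_pos_of_le_one_of_nonpos hs hs1 (by norm_num)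
      have h8 := H S (s ^ (-(1 / 4) : ℝ)) 0 hSm hY le_rfl (fun E hE _ => by
        rw [ENNReal.ofReal_zero]
        refine le_of_eq (measure_mono_null (fun z hz => ?_) (h7 k E hk hE))
        refine ⟨hz.1, ?_⟩
        have := hz.2.2
        linarith)
      have h9 : (s ^ (-(1 / 4) : ℝ)) ^ (-c) ≤ s ^ g := by
        rw [← Real.rpow_mul hs.le]
        refine rp_le hs hs1 ?_
        linarith
      have h10 : C * (s ^ (-(1 / 4) : ℝ)) ^ (-c) * V ≤ C * V * s ^ g := by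
        calc C * (s ^ (-(1 / 4) : ℝ)) ^ (-c) * V ≤ C * s ^ g * V := by gcongr
          _ = C * V * s ^ g := by ring
      rw [mul_zero, zero_add] at h8
      linarith
    · rcases le_or_gt t (s ^ (-(1 / (8 * k)) : ℝ)) with htT | htT
      · -- medium `t`
        have hY : 1 ≤ s ^ (-(1 / 4) : ℝ) :=
          Real.one_le_rpow_of_pos_of_le_one_of_nonpos hs hs1 (by norm_num)
        have hT1 : 1 ≤ s ^ (-(1 / (8 * k)) : ℝ) := by
          refine Real.one_le_rpow_of_pos_of_le_one_of_nonpos hs hs1 ?_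
          rw [neg_nonpos]
          positivity
        have h8 := H S (s ^ (-(1 / 4) : ℝ)) (C2 * 2 ^ k * s ^ (1 / 4 : ℝ)) hSm hY (by positivity)
          (fun E hE hEY => by
            refine (H2 E t s hE ht hs hs2).trans (ENNReal.ofReal_le_ofReal ?_)
            have h11 : (t + 1) ^ k ≤ 2 ^ k * s ^ (-(1 / 8) : ℝ) := by
              calc (t + 1) ^ k ≤ (2 * s ^ (-(1 / (8 * k)) : ℝ)) ^ k :=
                    pow_le_pow_left₀ (by linarith) (by linarith) k
                _ = 2 ^ k * s ^ (-(1 / 8) : ℝ) := by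
                    rw [mul_pow, ← Real.rpow_natCast (s ^ (-(1 / (8 * k)) : ℝ)) k,
                      ← Real.rpow_mul hs.le]
                    congr 2
                    field_simp
            have h12 : Real.sqrt (E * s) ≤ s ^ (3 / 8 : ℝ) := by
              rw [Real.sqrt_le_left (by positivity)]
              calc (E : ℝ) * s ≤ s ^ (-(1 / 4) : ℝ) * s ^ (1 : ℝ) := by
                    rw [Real.rpow_one]
                    exact mul_le_mul_of_nonneg_right hEY.le hs.le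
                _ = (s ^ (3 / 8 : ℝ)) ^ 2 := by
                    rw [← Real.rpow_add hs, ← Real.rpow_natCast, ← Real.rpow_mul hs.le]
                    norm_num
            calc C2 * (t + 1) ^ k * Real.sqrt (E * s) ≤
                  C2 * (2 ^ k * s ^ (-(1 / 8) : ℝ)) * s ^ (3 / 8 : ℝ) := by gcongr
              _ = C2 * 2 ^ k * (s ^ (-(1 / 8) : ℝ) * s ^ (3 / 8 : ℝ)) := by ring
              _ = C2 * 2 ^ k * s ^ (1 / 4 : ℝ) := by
                  rw [← Real.rpow_add hs]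
                  norm_num)
        have h9 : (s ^ (-(1 / 4) : ℝ)) ^ (-c) ≤ s ^ g := by
          rw [← Real.rpow_mul hs.le]
          refine rp_le hs hs1 ?_
          linarith
        have h9' : s ^ (1 / 4 : ℝ) ≤ s ^ g := rp_le hs hs1 (by linarith)
        have h10 : C * (s ^ (-(1 / 4) : ℝ)) ^ (-c) * V ≤ C * V * s ^ g := by
          calc C * (s ^ (-(1 / 4) : ℝ)) ^ (-c) * V ≤ C * s ^ g * V := by gcongr
            _ = C * V * s ^ g := by ring
        have h11 : C * (C2 * 2 ^ k * s ^ (1 / 4 : ℝ)) ≤ C * (C2 * 2 ^ k) * s ^ g := by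
          calc C * (C2 * 2 ^ k * s ^ (1 / 4 : ℝ)) ≤ C * (C2 * 2 ^ k * s ^ g) := by gcongr
            _ = C * (C2 * 2 ^ k) * s ^ g := by ring
        linarith
      · -- large `t`
        have hT1 : 1 ≤ s ^ (-(1 / (8 * k)) : ℝ) := by
          refine Real.one_le_rpow_of_pos_of_le_one_of_nonpos hs hs1 ?_
          rw [neg_nonpos]
          positivity
        have hT0 : 0 < s ^ (-(1 / (8 * k)) : ℝ) := by linarith
        have ht1 : 1 ≤ t := by linarith
        have h8 := H S t (C1 * t ^ (-(1 / 4) : ℝ)) hSm ht1 (by positivity)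
          (fun E hE hEY => by
            refine (measure_mono fun z hz => ?_).trans (H1 E t hE ht1 ?_)
            · exact ⟨hz.1, hz.2.1⟩
            · refine hEY.le.trans ?_
              calc t = t ^ (1 : ℝ) := (Real.rpow_one t).symm
                _ ≤ t ^ (((k : ℝ) + 1) / 2) :=
                    Real.rpow_le_rpow_of_exponent_le ht1 (by linarith))
        have h9 : t ^ (-(1 / 4) : ℝ) ≤ s ^ g := by
          calc t ^ (-(1 / 4) : ℝ) ≤ (s ^ (-(1 / (8 * k)) : ℝ)) ^ (-(1 / 4) : ℝ) :=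
                Real.rpow_le_rpow_of_nonpos hT0 htT.le (by norm_num)
            _ ≤ s ^ g := by
                rw [← Real.rpow_mul hs.le]
                refine rp_le hs hs1 (hg1.trans (le_of_eq ?_))
                field_simp
                norm_num
        have h9' : t ^ (-c) ≤ s ^ g := by
          calc t ^ (-c) ≤ (s ^ (-(1 / (8 * k)) : ℝ)) ^ (-c) :=
                Real.rpow_le_rpow_of_nonpos hT0 htT.le (by linarith)
            _ ≤ s ^ g := by
                rw [← Real.rpow_mul hs.le]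
                refine rp_le hs hs1 (hg2.trans (le_of_eq ?_))
                field_simp
        have h10 : C * t ^ (-c) * V ≤ C * V * s ^ g := by
          calc C * t ^ (-c) * V ≤ C * s ^ g * V := by gcongr
            _ = C * V * s ^ g := by ring
        have h11 : C * (C1 * t ^ (-(1 / 4) : ℝ)) ≤ C * C1 * s ^ g := by
          calc C * (C1 * t ^ (-(1 / 4) : ℝ)) ≤ C * (C1 * s ^ g) := by gcongr
            _ = C * C1 * s ^ g := by ring
        linarith
  · -- large `s`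
    have h8 : (limitMeasure k).real S ≤ M := measureReal_mono (Set.subset_univ _)
    have h9 : s ^ (1 : ℝ) ≤ s ^ g := rp_le hs hs1 (by linarith)
    rw [Real.rpow_one] at h9
    have h10 : M ≤ 2 * M * s ^ g := by
      have h11 : (1 : ℝ) / 2 ≤ s ^ g := by linarith
      nlinarith
    linarith

end Pool.Agent.H90.EQR.MUH

namespace Pool.Agent.H72.EQQ

/-- Row MUH. -/
theorem pf_MUH (h1 : T_CSL) (h2 : T_TLT) (h3 : T_SEQ) (h4 : T_MEA) (h5 : T_PRD) (h6 : T_NUL) :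
    T_MUH :=
  Pool.Agent.H90.EQR.MUH.main (Pool.Agent.H90.EQR.MUH.pf_TLE h2)
    (Pool.Agent.H90.EQR.MUH.pf_LYE h1) (Pool.Agent.H90.EQR.MUH.pf_LWN1 h6) h3 h4 h5

end Pool.Agent.H72.EQQ
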