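import Pool.Agent.H38.EQ.Targets

/-!
# Board `eqr_modules`, row `TGT`: no mass escapes
-/

set_option autoImplicit false

open Finset Filter Topology

namespace Pool.Agent.H90.EQR

open Pool.Agent.H38.AE.Statement (Admissible radical)
open Pool.Agent.H38.AT (height)
open Pool.Agent.H82.AS (Sqf ex sq)
open Pool.Agent.H38.EQ

/-- powers with a negative exponent are small -/
theorem small_rpow (C c ε : ℝ) (hc : 0 < c) (hε : 0 < ε) :
    ∃ Y : ℝ, 1 ≤ Y ∧ ∀ X : ℝ, Y ≤ X → C * X ^ (-c) ≤ ε := by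
  have h1 : Tendsto (fun X : ℝ => C * X ^ (-c)) atTop (𝓝 (C * 0)) :=
    (tendsto_rpow_neg_atTop hc).const_mul C
  rw [mul_zero] at h1
  have h2 : ∀ᶠ X : ℝ in atTop, C * X ^ (-c) < ε := h1.eventually (gt_mem_nhds hε)
  obtain ⟨Y, hY⟩ := eventually_atTop.1 h2
  exact ⟨max Y 1, le_max_right _ _, fun X hX => (hY X ((le_max_left _ _).trans hX)).le⟩

theorem pf_TGT (h1 : T_SQL) (h2 : T_SQM) (h3 : T_HTL) (h4 : Pool.Agent.H82.AS.T_SQB) :
    T_TGT := by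
  classical
  intro n hn
  obtain ⟨η, c1, C1, hη, hc1, hC1, H1⟩ := h2 n hn
  obtain ⟨ε0, c2, C2, hε0, hc2, hC2, H2⟩ := h1 n hn η hη
  refine ⟨ε0, hε0, fun ε hε => ?_⟩
  have h4ε : 0 < ε / 4 := by positivity
  obtain ⟨Y, hY1, hY⟩ := small_rpow C1 c1 (ε / 4) hc1 h4ε
  obtain ⟨C3, hC3, H3⟩ := h3 n hn Y hY1
  obtain ⟨lam, hl1, hl⟩ := small_rpow C3 (1 / 2) (ε / 4) (by norm_num) h4ε
  obtain ⟨Xa, hXa1, hXa⟩ := small_rpow C1 c1 (ε / 4) hc1 h4ε
  obtain ⟨Xb, hXb1, hXb⟩ := small_rpow C2 c2 (ε / 4) hc2 h4ε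
  refine ⟨Y, lam, max Xa Xb, hY1, hl1, hXa1.trans (le_max_left _ _), fun X F hX hF => ?_⟩
  have hXa' : Xa ≤ X := (le_max_left _ _).trans hX
  have hXb' : Xb ≤ X := (le_max_right _ _).trans hX
  have hX1 : 1 ≤ X := hXa1.trans hXa'
  have hX0 : 0 < X := by linarith
  set N : ℝ := X ^ (1 - 1 / (n : ℝ)) with hN
  have hN0 : 0 < N := Real.rpow_pos_of_pos hX0 _
  have hsplit : ∀ c : ℝ, X ^ (1 - 1 / (n : ℝ) - c) = N * X ^ (-c) := by
    intro c
    rw [hN, ← Real.rpow_add hX0]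
    ring_nf
  -- the three parts
  set F1 := F.filter fun x => X ^ η < (sq (pr x) : ℝ) with hF1
  set F2 := F.filter fun x => Y ≤ (sq (pr x) : ℝ) ∧ (sq (pr x) : ℝ) ≤ X ^ η with hF2
  set F3 := F.filter fun x => (sq (pr x) : ℝ) < Y with hF3
  have hsub : F ⊆ F1 ∪ (F2 ∪ F3) := by
    intro x hx
    rw [mem_union, mem_union, hF1, hF2, hF3, mem_filter, mem_filter, mem_filter]
    by_cases ha : X ^ η < (sq (pr x) : ℝ)
    · exact Or.inl ⟨hx, ha⟩
    · by_cases hb : (sq (pr x) : ℝ) < Y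
      · exact Or.inr (Or.inr ⟨hx, hb⟩)
      · exact Or.inr (Or.inl ⟨hx, not_lt.1 hb, not_lt.1 ha⟩)
  have hcard : (F.card : ℝ) ≤ F1.card + (F2.card + F3.card) := by
    have h5 : F.card ≤ F1.card + (F2.card + F3.card) :=
      (card_le_card hsub).trans ((card_union_le _ _).trans
        (Nat.add_le_add_left (card_union_le _ _) _))
    exact_mod_cast h5
  have hA : (F1.card : ℝ) ≤ N * (ε / 4) := by
    have h5 := H2 X F1 hX1 fun x hx => by
      rw [hF1, mem_filter] at hx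
      obtain ⟨hx1, hx2⟩ := hx
      exact ⟨(hF x hx1).1, (hF x hx1).2.2.1, hx2⟩
    refine h5.trans ?_
    rw [hsplit]
    calc C2 * (N * X ^ (-c2)) = N * (C2 * X ^ (-c2)) := by ring
      _ ≤ N * (ε / 4) := mul_le_mul_of_nonneg_left (hXb X hXb') hN0.le
  have hB : (F2.card : ℝ) ≤ N * (ε / 4) + N * (ε / 4) := by
    have h5 := H1 X Y F2 hX1 hY1 fun x hx => by
      rw [hF2, mem_filter] at hx
      obtain ⟨hx1, hx2, hx3⟩ := hx
      exact ⟨(hF x hx1).1, (hF x hx1).2.1, hx2, hx3⟩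
    refine h5.trans ?_
    rw [hsplit]
    calc C1 * (Y ^ (-c1) * N + N * X ^ (-c1)) =
        N * (C1 * Y ^ (-c1)) + N * (C1 * X ^ (-c1)) := by ring
      _ ≤ N * (ε / 4) + N * (ε / 4) := add_le_add
        (mul_le_mul_of_nonneg_left (hY Y le_rfl) hN0.le)
        (mul_le_mul_of_nonneg_left (hXa X hXa') hN0.le)
  have hC : (F3.card : ℝ) ≤ N * (ε / 4) := by
    have h5 := H3 X lam F3 hX1 hl1 fun x hx => by
      rw [hF3, mem_filter] at hx
      obtain ⟨hx1, hx2⟩ := hx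
      obtain ⟨g1, g2, g3, g4⟩ := hF x hx1
      refine ⟨g1, g2, hx2.le, ?_⟩
      rcases g4 with g4 | g4
      · exfalso
        have hpr : 1 ≤ pr x := by
          have h6 : (∏ i, x i) ≠ 0 := Finset.prod_ne_zero_iff.2 fun i _ => g1.1 i
          exact Nat.one_le_iff_ne_zero.2 (Int.natAbs_ne_zero.2 h6)
        obtain ⟨-, e2, e3, -⟩ := h4 (pr x) hpr
        have hsq : 1 ≤ Pool.Agent.H82.AS.sq (pr x) := Nat.pos_of_dvd_of_pos e2 hpr
        obtain ⟨-, -, -, -, -, e4, -⟩ := h4 (Pool.Agent.H82.AS.sq (pr x)) hsq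
        rw [e3] at e4
        linarith
      · exact g4
    refine h5.trans ?_
    calc C3 * lam ^ (-(1 / 2) : ℝ) * N = N * (C3 * lam ^ (-(1 / 2) : ℝ)) := by ring
      _ ≤ N * (ε / 4) := mul_le_mul_of_nonneg_left (hl lam le_rfl) hN0.le
  calc (F.card : ℝ) ≤ F1.card + (F2.card + F3.card) := hcard
    _ ≤ N * (ε / 4) + ((N * (ε / 4) + N * (ε / 4)) + N * (ε / 4)) :=
      add_le_add hA (add_le_add hB hC)
    _ = ε * N := by ring

end Pool.Agent.H90.EQR
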